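import Pool.Agent.Helper34.LL.Defs2

/-!
# Project LL, module LF2: union bound and choice of parameters
-/

set_option autoImplicit false

namespace Pool.Agent.Helper5.LL

open Pool.Agent.Helper34.LL Pool.Agent.Helper34.SD Pool.Agent.Helper34.PT

private theorem words_eq (n : ℕ) : {w : List Bool | w.length = n} =
    (fun v : List.Vector Bool n => v.toList) '' Set.univ := by
  ext w
  constructor
  · intro hw
    exact ⟨⟨w, hw⟩, Set.mem_univ _, rfl⟩
  · rintro ⟨v, -, rfl⟩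
    exact v.2

private theorem words_fin (n : ℕ) : {w : List Bool | w.length = n}.Finite := by
  rw [words_eq]
  exact Set.finite_univ.image _

private theorem card_words (n : ℕ) : {w : List Bool | w.length = n}.ncard = 2 ^ n := by
  rw [words_eq, Set.ncard_image_of_injective _ List.Vector.toList_injective, Set.ncard_univ,
    Nat.card_eq_fintype_card]
  have h := card_vector (α := Bool) n
  rw [Fintype.card_bool] at h
  exact h

private theorem geom3 (m : ℕ) : (∑ T : Fin (m + 1), 3 ^ (T.1 + 1)) ≤ 9 * 3 ^ m := by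
  have h : ∀ k : ℕ, (∑ T ∈ Finset.range k, 3 ^ (T + 1)) ≤ 3 * 3 ^ k := by
    intro k
    induction k with
    | zero => simp
    | succ k ih =>
      rw [Finset.sum_range_succ]
      calc (∑ T ∈ Finset.range k, 3 ^ (T + 1)) + 3 ^ (k + 1) ≤ 3 * 3 ^ k + 3 ^ (k + 1) := by omega
        _ ≤ 3 * 3 ^ (k + 1) := by
          rw [pow_succ]
          omega
  rw [Fin.sum_univ_eq_sum_range (fun T => 3 ^ (T + 1)) (m + 1)]
  refine (h (m + 1)).trans ?_
  rw [pow_succ]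
  omega

/-- **LF2.** -/
theorem hLF2 : Stmt_LD2 → Stmt_LE2 → Stmt_LF2 := by
  intro hD hE δ hδ
  obtain ⟨d, hd0, hdδ, hd4⟩ : ∃ d : ℝ, 0 < d ∧ d ≤ δ ∧ d ≤ 1 / 4 :=
    ⟨min δ (1 / 4), lt_min hδ (by norm_num), min_le_left _ _, min_le_right _ _⟩
  have hL0 : 0 < Real.log 972 := Real.log_pos (by norm_num)
  obtain ⟨c1, hc1⟩ : ∃ c1 : ℝ, c1 = d / (2 * Real.log 972) := ⟨_, rfl⟩
  have hc10 : 0 < c1 := by rw [hc1]; positivity
  obtain ⟨c, hc0, hcc1, hcd⟩ : ∃ c : ℝ, 0 < c ∧ c ≤ c1 / 8 ∧ c ≤ d / 4 :=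
    ⟨min (c1 / 8) (d / 4), lt_min (by positivity) (by positivity), min_le_left _ _,
      min_le_right _ _⟩
  refine ⟨c, max 160000 ⌈(1440000 : ℝ) ^ (4 / d)⌉₊, hc0, fun n hn => ?_⟩
  have hnN : 160000 ≤ n := le_trans (le_max_left _ _) hn
  have hn1 : (160000 : ℝ) ≤ n := by exact_mod_cast hnN
  have hn2 : (1440000 : ℝ) ^ (4 / d) ≤ n :=
    le_trans (Nat.le_ceil _) (by exact_mod_cast le_trans (le_max_right _ _) hn)
  have hnpos : (0 : ℝ) < n := by linarith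
  have hn1' : (1 : ℝ) ≤ n := by linarith
  have hbig : (1440000 : ℝ) ≤ (n : ℝ) ^ (d / 4) := by
    calc (1440000 : ℝ) = ((1440000 : ℝ) ^ (4 / d)) ^ (d / 4) := by
          rw [← Real.rpow_mul (by norm_num), show 4 / d * (d / 4) = 1 by field_simp,
            Real.rpow_one]
      _ ≤ (n : ℝ) ^ (d / 4) := Real.rpow_le_rpow (by positivity) hn2 (by positivity)
  have hlog : 0 ≤ Real.log n := Real.log_nonneg hn1'
  obtain ⟨m, hmle, hmlt⟩ : ∃ m : ℕ, (m : ℝ) ≤ c1 * Real.log n ∧ c1 * Real.log n < m + 1 :=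
    ⟨⌊c1 * Real.log n⌋₊, Nat.floor_le (by positivity), Nat.lt_floor_add_one _⟩
  have h972 : (972 : ℝ) ^ m ≤ (n : ℝ) ^ (d / 2) := by
    rw [Real.rpow_def_of_pos hnpos]
    calc (972 : ℝ) ^ m = Real.exp (Real.log 972 * m) := by
          rw [Real.exp_mul, Real.exp_log (by norm_num), Real.rpow_natCast]
      _ ≤ Real.exp (Real.log n * (d / 2)) := by
          apply Real.exp_le_exp.2
          calc Real.log 972 * (m : ℝ) ≤ Real.log 972 * (c1 * Real.log n) :=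
                mul_le_mul_of_nonneg_left hmle hL0.le
            _ = Real.log n * (d / 2) := by rw [hc1]; field_simp
  have h18 : (18 : ℝ) ^ m ≤ (n : ℝ) ^ (d / 2) :=
    le_trans (pow_le_pow_left₀ (by norm_num) (by norm_num) m) h972
  have h2m : (2 : ℝ) ^ m ≤ (n : ℝ) ^ (d / 2) :=
    le_trans (pow_le_pow_left₀ (by norm_num) (by norm_num) m) h972
  obtain ⟨a0, ha0⟩ : ∃ a0 : ℝ, a0 = (n : ℝ) ^ (1 / 2 + d / 2) := ⟨_, rfl⟩
  have ha0pos : 0 < a0 := by rw [ha0]; positivity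
  have ha0sq : a0 ^ 2 = (n : ℝ) * (n : ℝ) ^ d := by
    rw [ha0, ← Real.rpow_natCast, ← Real.rpow_mul hnpos.le]
    rw [show (1 / 2 + d / 2) * ((2 : ℕ) : ℝ) = 1 + d by push_cast; ring,
      Real.rpow_add hnpos, Real.rpow_one]
  have hhalf : (400 : ℝ) ≤ (n : ℝ) ^ (1 / 2 : ℝ) := by
    rw [← Real.sqrt_eq_rpow]
    apply Real.le_sqrt_of_sq_le
    linarith
  have ha0eq : a0 = (n : ℝ) ^ (1 / 2 : ℝ) * (n : ℝ) ^ (d / 2) := by
    rw [ha0, Real.rpow_add hnpos]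
  have hnd2 : (0 : ℝ) < (n : ℝ) ^ (d / 2) := by positivity
  have h400 : 400 * (18 : ℝ) ^ m ≤ a0 := by
    rw [ha0eq]
    calc 400 * (18 : ℝ) ^ m ≤ 400 * (n : ℝ) ^ (d / 2) := by linarith
      _ ≤ (n : ℝ) ^ (1 / 2 : ℝ) * (n : ℝ) ^ (d / 2) :=
        mul_le_mul_of_nonneg_right hhalf hnd2.le
  -- `6 * (2 * a0) ≤ n`
  have h6a : 6 * (2 * a0) ≤ n := by
    have e1 : (n : ℝ) = a0 * (n : ℝ) ^ (1 / 2 - d / 2) := by
      rw [ha0, ← Real.rpow_add hnpos, show 1 / 2 + d / 2 + (1 / 2 - d / 2) = 1 by ring,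
        Real.rpow_one]
    have e2 : (12 : ℝ) ≤ (n : ℝ) ^ (1 / 2 - d / 2) := by
      have e3 : (n : ℝ) ^ (1 / 4 : ℝ) ≤ (n : ℝ) ^ (1 / 2 - d / 2) :=
        Real.rpow_le_rpow_of_exponent_le hn1' (by linarith)
      have e4 : (12 : ℝ) ≤ (n : ℝ) ^ (1 / 4 : ℝ) := by
        have e5 : (12 : ℝ) = ((12 : ℝ) ^ (4 : ℝ)) ^ (1 / 4 : ℝ) := by
          rw [← Real.rpow_mul (by norm_num)]
          norm_num
        rw [e5]
        apply Real.rpow_le_rpow (by positivity) _ (by norm_num)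
        have e6 : ((12 : ℝ) ^ (4 : ℝ)) = 20736 := by
          rw [show (4 : ℝ) = ((4 : ℕ) : ℝ) by norm_num, Real.rpow_natCast]
          norm_num
        rw [e6]
        linarith
      exact e4.trans e3
    calc 6 * (2 * a0) = a0 * 12 := by ring
      _ ≤ a0 * (n : ℝ) ^ (1 / 2 - d / 2) := mul_le_mul_of_nonneg_left e2 ha0pos.le
      _ = n := e1.symm
  -- the final bound
  have h14 : (14 : ℝ) ≤ (n : ℝ) ^ (d / 2) := by
    have : (n : ℝ) ^ (d / 4) ≤ (n : ℝ) ^ (d / 2) :=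
      Real.rpow_le_rpow_of_exponent_le hn1' (by linarith)
    linarith
  have hfin : 3 * (2 * a0) + 2 ^ (m + 1) + 6 ≤ (n : ℝ) ^ (1 / 2 + δ) := by
    have f1 : (2 : ℝ) ^ (m + 1) ≤ 2 * a0 := by
      rw [pow_succ, ha0eq]
      have : (n : ℝ) ^ (d / 2) ≤ (n : ℝ) ^ (1 / 2 : ℝ) * (n : ℝ) ^ (d / 2) := by
        have h1 : (1 : ℝ) ≤ (n : ℝ) ^ (1 / 2 : ℝ) := by linarith
        calc (n : ℝ) ^ (d / 2) = 1 * (n : ℝ) ^ (d / 2) := (one_mul _).symm
          _ ≤ _ := mul_le_mul_of_nonneg_right h1 hnd2.le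
      linarith
    have f2 : (1 : ℝ) ≤ a0 := by
      rw [ha0]
      exact Real.one_le_rpow hn1' (by positivity)
    have f3 : 14 * a0 ≤ (n : ℝ) ^ (1 / 2 + d) := by
      have f4 : (n : ℝ) ^ (1 / 2 + d) = (n : ℝ) ^ (d / 2) * a0 := by
        rw [ha0, ← Real.rpow_add hnpos]
        congr 1
        ring
      rw [f4]
      exact mul_le_mul_of_nonneg_right h14 ha0pos.le
    have f5 : (n : ℝ) ^ (1 / 2 + d) ≤ (n : ℝ) ^ (1 / 2 + δ) :=
      Real.rpow_le_rpow_of_exponent_le hn1' (by linarith)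
    linarith
  let J : Type := Σ T : Fin (m + 1), List.Vector (Fin 3) (T.1 + 1)
  let _ : Fintype J := inferInstanceAs (Fintype (Σ T : Fin (m + 1), List.Vector (Fin 3) (T.1 + 1)))
  have hcardJ : (Fintype.card J : ℝ) ≤ 9 * 3 ^ m := by
    have h : Fintype.card J = ∑ T : Fin (m + 1), 3 ^ (T.1 + 1) := by
      have h1 : Fintype.card J = ∑ T : Fin (m + 1),
          Fintype.card (List.Vector (Fin 3) (T.1 + 1)) := Fintype.card_sigma
      rw [h1]
      refine Finset.sum_congr rfl fun T _ => ?_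
      rw [card_vector, Fintype.card_fin]
    rw [h]
    exact_mod_cast geom3 m
  set A : Set (List Bool) := {w : List Bool | w.length = n ∧
    ∀ t : ℕ, (t : ℝ) ≤ c * n * Real.log n → ∃ w' : List Bool, run t w = some w' ∧
      |(w'.length : ℝ) - n| ≤ (n : ℝ) ^ (1 / 2 + δ)} with hA
  let B : J → Set (List Bool) := fun j => {w : List Bool | w.length = n ∧
      ∃ p ≤ n, a0 + 400 * 18 ^ j.1.1 ≤ |(FF j.2.1 (w.take p) : ℝ) - p|}
  have hAf : A.Finite := (words_fin n).subset fun w hw => hw.1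
  have hUf : (⋃ j, B j).Finite := (words_fin n).subset (Set.iUnion_subset fun j w hw => hw.1)
  have hsub : {w : List Bool | w.length = n} ⊆ A ∪ ⋃ j, B j := by
    intro w hw
    have hw' : w.length = n := hw
    by_cases hU : w ∈ ⋃ j, B j
    · exact Or.inr hU
    · left
      refine ⟨hw', fun t ht => ?_⟩
      have h := hE m (2 * a0) w (by rw [hw']; omega) (by rw [hw']; exact h6a) ?_ t ?_
      · obtain ⟨w', hr, hl⟩ := h
        rw [hw'] at hl
        exact ⟨w', hr, hl.trans hfin⟩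
      · intro T hT x hx p hp
        rw [hw'] at hp
        by_contra hlt
        apply hU
        rw [Set.mem_iUnion]
        refine ⟨⟨⟨T, Nat.lt_succ_of_le hT⟩, ⟨x, hx⟩⟩, hw', p, hp, ?_⟩
        have h1 := not_le.1 hlt
        have h2 : (18 : ℝ) ^ T ≤ 18 ^ m := pow_le_pow_right₀ (by norm_num) hT
        show a0 + 400 * 18 ^ T ≤ |(FF x (w.take p) : ℝ) - p|
        linarith
      · rw [hw']
        have h3 : 8 * (t : ℝ) ≤ ((m : ℝ) + 1) * n := by
          have h4 : c * n * Real.log n ≤ c1 / 8 * n * Real.log n := by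
            have := mul_le_mul_of_nonneg_right hcc1 hnpos.le
            exact mul_le_mul_of_nonneg_right this hlog
          have h5 : c1 * Real.log n * n ≤ ((m : ℝ) + 1) * n :=
            mul_le_mul_of_nonneg_right hmlt.le hnpos.le
          calc 8 * (t : ℝ) ≤ 8 * (c1 / 8 * n * Real.log n) := by linarith
            _ = c1 * Real.log n * n := by ring
            _ ≤ _ := h5
        exact_mod_cast h3
  have h1 : 2 ^ n ≤ A.ncard + (⋃ j, B j).ncard := by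
    rw [← card_words n]
    exact le_trans (Set.ncard_le_ncard hsub (hAf.union hUf)) (Set.ncard_union_le _ _)
  have h2 : (⋃ j, B j).ncard ≤ ∑ j, (B j).ncard := Set.ncard_iUnion_le_of_fintype B
  have h3 : ∀ j : J, ((B j).ncard : ℝ) * a0 ^ 2 ≤ 2 ^ n * (n * (400 * 18 ^ m) ^ 2) := by
    intro j
    have h := hD j.1.1 n a0 ha0pos j.2.1 j.2.2
    have hT : j.1.1 ≤ m := Nat.lt_succ_iff.1 j.1.2
    have h4 : (400 * (18 : ℝ) ^ j.1.1) ^ 2 ≤ (400 * 18 ^ m) ^ 2 := by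
      have : (18 : ℝ) ^ j.1.1 ≤ 18 ^ m := pow_le_pow_right₀ (by norm_num) hT
      exact pow_le_pow_left₀ (by positivity) (by linarith) 2
    refine h.trans ?_
    have h5 : (n : ℝ) * (400 * 18 ^ j.1.1) ^ 2 ≤ n * (400 * 18 ^ m) ^ 2 :=
      mul_le_mul_of_nonneg_left h4 hnpos.le
    exact mul_le_mul_of_nonneg_left h5 (by positivity)
  have h5 : (((⋃ j, B j).ncard : ℕ) : ℝ) * a0 ^ 2 ≤
      (9 * 3 ^ m) * (2 ^ n * (n * (400 * 18 ^ m) ^ 2)) := by
    calc (((⋃ j, B j).ncard : ℕ) : ℝ) * a0 ^ 2 ≤ ((∑ j, (B j).ncard : ℕ) : ℝ) * a0 ^ 2 := by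
          apply mul_le_mul_of_nonneg_right _ (by positivity)
          exact_mod_cast h2
      _ = ∑ j, ((B j).ncard : ℝ) * a0 ^ 2 := by push_cast; rw [Finset.sum_mul]
      _ ≤ ∑ j : J, ((2 : ℝ) ^ n * ((n : ℝ) * (400 * (18 : ℝ) ^ m) ^ 2)) := Finset.sum_le_sum fun j _ => h3 j
      _ = (Fintype.card J : ℝ) * (2 ^ n * (n * (400 * 18 ^ m) ^ 2)) := by
        rw [Finset.sum_const, Finset.card_univ, nsmul_eq_mul]
      _ ≤ _ := mul_le_mul_of_nonneg_right hcardJ (by positivity)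
  have h6 : (9 * (3 : ℝ) ^ m) * (2 ^ n * (n * (400 * 18 ^ m) ^ 2)) =
      1440000 * 972 ^ m * n * 2 ^ n := by
    have h7 : (972 : ℝ) ^ m = 3 ^ m * (18 ^ m) ^ 2 := by
      rw [← pow_mul, mul_comm m 2, pow_mul, ← mul_pow]
      norm_num
    rw [h7]
    ring
  have h8 : (((⋃ j, B j).ncard : ℕ) : ℝ) ≤ (n : ℝ) ^ (-c) * 2 ^ n := by
    have k1 : (((⋃ j, B j).ncard : ℕ) : ℝ) * a0 ^ 2 ≤ (n : ℝ) ^ (-c) * 2 ^ n * a0 ^ 2 := by
      refine h5.trans ?_
      rw [h6, ha0sq]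
      have k2 : (1440000 : ℝ) * 972 ^ m ≤ (n : ℝ) ^ (-c) * (n : ℝ) ^ d := by
        calc (1440000 : ℝ) * 972 ^ m ≤ (n : ℝ) ^ (d / 4) * (n : ℝ) ^ (d / 2) :=
              mul_le_mul hbig h972 (by positivity) (by positivity)
          _ = (n : ℝ) ^ (d / 4 + d / 2) := (Real.rpow_add hnpos _ _).symm
          _ ≤ (n : ℝ) ^ (-c + d) := Real.rpow_le_rpow_of_exponent_le hn1' (by linarith)
          _ = (n : ℝ) ^ (-c) * (n : ℝ) ^ d := Real.rpow_add hnpos _ _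
      calc (1440000 : ℝ) * 972 ^ m * n * 2 ^ n = (1440000 * 972 ^ m) * (n * 2 ^ n) := by ring
        _ ≤ ((n : ℝ) ^ (-c) * (n : ℝ) ^ d) * (n * 2 ^ n) :=
          mul_le_mul_of_nonneg_right k2 (by positivity)
        _ = _ := by ring
    exact le_of_mul_le_mul_right k1 (by positivity)
  have h9 : (2 : ℝ) ^ n ≤ (A.ncard : ℝ) + (((⋃ j, B j).ncard : ℕ) : ℝ) := by exact_mod_cast h1
  linarith

end Pool.Agent.Helper5.LL
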